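import Pool.Agent.Q286.GB.Stm
import Pool.Agent.Q261.BD.Lm

/-!
# Project GB (helper286): basic facts on the L-functions
-/

set_option autoImplicit false

namespace Pool.Agent.Q211.GB

open Complex MeasureTheory Filter Topology Set
open Pool.Agent.Q286.BD (cl Lam ML)
open Pool.Agent.Q286.GB

theorem term_le {a : ℕ → ℂ} (h0 : a 0 = 0) {s : ℂ} (hs : 2 ≤ s.re) (n : ℕ) :
    ‖a n * (n : ℂ) ^ (-s)‖ ≤ ‖a n‖ * (n : ℝ) ^ (-2 : ℝ) := by
  rcases Nat.eq_zero_or_pos n with rfl | hn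
  · rw [h0, zero_mul, norm_zero, zero_mul]
  · rw [norm_mul, Complex.norm_natCast_cpow_of_pos hn, neg_re]
    apply mul_le_mul_of_nonneg_left _ (norm_nonneg _)
    exact Real.rpow_le_rpow_of_exponent_le (by exact_mod_cast hn) (by linarith)

theorem summable_term {a : ℕ → ℂ} (h0 : a 0 = 0)
    (ha : Summable (fun n : ℕ => ‖a n‖ * (n : ℝ) ^ (-2 : ℝ))) {s : ℂ} (hs : 2 ≤ s.re) :
    Summable (fun n : ℕ => a n * (n : ℂ) ^ (-s)) :=
  Summable.of_norm_bounded ha (fun n => term_le h0 hs n)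

theorem tsum_le {a : ℕ → ℂ} (h0 : a 0 = 0)
    (ha : Summable (fun n : ℕ => ‖a n‖ * (n : ℝ) ^ (-2 : ℝ))) {s : ℂ} (hs : 2 ≤ s.re) :
    ‖∑' n : ℕ, a n * (n : ℂ) ^ (-s)‖ ≤ ∑' n : ℕ, ‖a n‖ * (n : ℝ) ^ (-2 : ℝ) :=
  tsum_of_norm_bounded ha.hasSum (fun n => term_le h0 hs n)

theorem term_eq {a : ℕ → ℂ} (h0 : a 0 = 0) (s : ℂ) (n : ℕ) :
    LSeries.term a s n = a n * (n : ℂ) ^ (-s) := by
  rcases Nat.eq_zero_or_pos n with rfl | hn
  · rw [LSeries.term_zero, h0, zero_mul]
  · rw [LSeries.term_of_ne_zero (by omega), cpow_neg, div_eq_mul_inv]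

/-- the product of `L` with the inverse series is one -/
theorem L_mul (O : LFn) {s : ℂ} (hs : 2 ≤ s.re) :
    O.L s * ∑' n : ℕ, O.mu n * (n : ℂ) ^ (-s) = 1 := by
  have h1 : LSeriesHasSum O.lam s (O.L s) := by
    unfold LSeriesHasSum
    have e : LSeries.term O.lam s = fun n : ℕ => O.lam n * (n : ℂ) ^ (-s) :=
      funext fun n => term_eq O.lam_zero s n
    rw [e]
    exact O.ser s hs
  have h2 : LSeriesHasSum O.mu s (∑' n : ℕ, O.mu n * (n : ℂ) ^ (-s)) := by
    unfold LSeriesHasSum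
    have e : LSeries.term O.mu s = fun n : ℕ => O.mu n * (n : ℂ) ^ (-s) :=
      funext fun n => term_eq O.mu_zero s n
    rw [e]
    exact (summable_term O.mu_zero O.mu_sum hs).hasSum
  have h3 := LSeriesHasSum.convolution h1 h2
  have h4 : LSeries.convolution O.lam O.mu = LSeries.delta := by
    rw [LSeries.convolution_def]
    funext n
    rcases Nat.eq_zero_or_pos n with rfl | hn
    · simp [LSeries.delta]
    · rw [O.inv n hn]
      rfl
  rw [h4] at h3
  have h5 := h3.LSeries_eq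
  rw [LSeries_delta] at h5
  simpa using h5.symm

/-- bounds in the half-plane of absolute convergence -/
theorem L_bd (O : LFn) : ∃ A : ℝ, 1 ≤ A ∧ (∀ s : ℂ, 2 ≤ s.re → O.L s ≠ 0 ∧ ‖O.L s‖ ≤ A ∧ ‖(O.L s)⁻¹‖ ≤ A) ∧
    ∀ s : ℂ, 5 / 2 ≤ s.re → ‖deriv O.L s‖ ≤ 2 * A := by
  set A1 : ℝ := ∑' n : ℕ, ‖O.lam n‖ * (n : ℝ) ^ (-2 : ℝ) with hA1
  set A2 : ℝ := ∑' n : ℕ, ‖O.mu n‖ * (n : ℝ) ^ (-2 : ℝ) with hA2
  have h1 : 0 ≤ A1 := tsum_nonneg fun n => by positivity
  have h2 : 0 ≤ A2 := tsum_nonneg fun n => by positivity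
  have hL : ∀ s : ℂ, 2 ≤ s.re → ‖O.L s‖ ≤ A1 := by
    intro s hs
    rw [← (O.ser s hs).tsum_eq]
    exact tsum_le O.lam_zero O.lam_sum hs
  refine ⟨1 + A1 + A2, by linarith, fun s hs => ?_, fun s hs => ?_⟩
  · have h3 := L_mul O hs
    refine ⟨left_ne_zero_of_mul_eq_one h3, by linarith [hL s hs], ?_⟩
    rw [inv_eq_of_mul_eq_one_right h3]
    linarith [tsum_le O.mu_zero O.mu_sum hs]
  · have h3 := Complex.norm_deriv_le_of_forall_mem_sphere_norm_le (c := s) (R := 1 / 2) (C := A1)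
      (f := O.L) (by norm_num) O.entire.diffContOnCl (by
        intro z hz
        apply hL
        have h4 : ‖z - s‖ = 1 / 2 := by rwa [mem_sphere_iff_norm] at hz
        have h5 := Complex.abs_re_le_norm (z - s)
        rw [h4, sub_re, abs_le] at h5
        linarith [h5.1])
    refine h3.trans ?_
    linarith

/-- `L` tends to one -/
theorem L_sub_one (O : LFn) : ∃ A : ℝ, 0 < A ∧ ∀ s : ℂ, 2 ≤ s.re → ‖O.L s - 1‖ ≤ A * (2 : ℝ) ^ (-(s.re - 2)) := by
  set A1 : ℝ := ∑' n : ℕ, ‖O.lam n‖ * (n : ℝ) ^ (-2 : ℝ) with hA1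
  have h1 : 0 ≤ A1 := tsum_nonneg fun n => by positivity
  refine ⟨A1 + 1, by linarith, fun s hs => ?_⟩
  have h2 := O.ser s hs
  have h3 : HasSum (fun n : ℕ => if n = 1 then (1 : ℂ) else 0) 1 := hasSum_ite_eq 1 1
  have h4 := h2.sub h3
  have h5 : ∀ n : ℕ, ‖O.lam n * (n : ℂ) ^ (-s) - (if n = 1 then (1 : ℂ) else 0)‖ ≤
      ‖O.lam n‖ * (n : ℝ) ^ (-2 : ℝ) * (2 : ℝ) ^ (-(s.re - 2)) := by
    intro n
    rcases Nat.lt_or_ge n 2 with hn | hn
    · interval_cases n
      · rw [O.lam_zero]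
        simp
      · rw [O.lam_one]
        simp
        positivity
    · rw [if_neg (by omega), sub_zero, norm_mul, Complex.norm_natCast_cpow_of_pos (by omega), neg_re,
        mul_assoc]
      apply mul_le_mul_of_nonneg_left _ (norm_nonneg _)
      have hn2 : (2 : ℝ) ≤ n := by exact_mod_cast hn
      have e : (n : ℝ) ^ (-s.re) = (n : ℝ) ^ (-2 : ℝ) * (n : ℝ) ^ (-(s.re - 2)) := by
        rw [← Real.rpow_add (by linarith)]
        congr 1
        ring
      rw [e]
      apply mul_le_mul_of_nonneg_left _ (by positivity)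
      exact Real.rpow_le_rpow_of_nonpos (by norm_num) hn2 (by linarith)
  rw [← h4.tsum_eq]
  have h6 := tsum_of_norm_bounded (O.lam_sum.mul_right ((2 : ℝ) ^ (-(s.re - 2)))).hasSum h5
  refine h6.trans ?_
  rw [tsum_mul_right]
  apply mul_le_mul_of_nonneg_right _ (by positivity)
  linarith

/-- the logarithmic derivative of the completed function -/
theorem X_ld (O : Obj) {s : ℂ} (hs : 1 / 2 - O.η < s.re) (hL : O.L s ≠ 0) :
    deriv O.X s / O.X s = deriv O.γ s / O.γ s + deriv O.L s / O.L s := by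
  have h1 : O.X =ᶠ[𝓝 s] fun z => O.γ z * O.L z := by
    have ho : IsOpen {z : ℂ | 1 / 2 - O.η < z.re} := isOpen_lt continuous_const Complex.continuous_re
    filter_upwards [ho.mem_nhds hs] with z hz
    exact O.eq z hz
  rw [h1.deriv_eq, O.eq s hs, deriv_fun_mul (O.γ_diff s hs) (O.entire s)]
  have h2 := O.γ_ne s hs
  field_simp

theorem L_ne (O : Obj) {s : ℂ} (hs : 1 / 2 - O.η < s.re) (hX : O.X s ≠ 0) : O.L s ≠ 0 := by
  intro h
  apply hX
  rw [O.eq s hs, h, mul_zero]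

/-- job FB -/
theorem t_FB (h1 : S_CAR) (h2 : S_POS) : S_FB := by
  intro O hRH
  obtain ⟨A, hA, hL, hL'⟩ := L_bd O.toLFn
  obtain ⟨Cγ, hCγ, hγ⟩ := O.γ_ld 4
  obtain ⟨hpos, -, -⟩ := h2 O hRH
  refine ⟨6 * (Cγ + 2 * A * A) + 2 * A, by positivity, ?_, ?_⟩
  · intro s hs
    obtain ⟨a1, a2, a3⟩ := hL s (by linarith)
    have h3 : 0 ≤ 6 * (Cγ + 2 * A * A) := by positivity
    refine ⟨by linarith, by linarith, by linarith [hL' s hs]⟩
  · intro u v hv hv3
    set F : ℂ → ℂ := fun s => deriv O.X s / O.X s with hF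
    set c : ℂ := 1 / 2 + (3 : ℝ) + u * I with hc
    have hη := O.η_pos
    have hcre : c.re = 7 / 2 := by
      rw [hc]
      simp
      norm_num
    have hcim : c.im = u := by
      rw [hc]
      simp
    have hmem : ∀ z ∈ Metric.ball c 3, 1 / 2 < z.re := by
      intro z hz
      rw [mem_ball_iff_norm] at hz
      have h5 := (Complex.abs_re_le_norm (z - c)).trans_lt hz
      rw [sub_re, abs_lt] at h5
      linarith [h5.1]
    have hFc : ‖F c‖ ≤ (Cγ + 2 * A * A) * Lam u := by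
      obtain ⟨a1, a2, a3⟩ := hL c (by linarith)
      have h3 := X_ld O (s := c) (by linarith) a1
      have h4 := hγ c (by linarith) (by linarith)
      have h5 := hL' c (by linarith)
      have h6 := O.γ_ne c (by linarith)
      have h7 : ‖deriv O.γ c / O.γ c‖ ≤ Cγ * Lam u := by
        rw [norm_div, div_le_iff₀ (norm_pos_iff.2 h6)]
        rw [hcim] at h4
        exact h4
      have h8 : ‖deriv O.L c / O.L c‖ ≤ 2 * A * A := by
        rw [div_eq_mul_inv, norm_mul]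
        exact mul_le_mul h5 a3 (norm_nonneg _) (by linarith)
      have h9 : F c = deriv O.γ c / O.γ c + deriv O.L c / O.L c := h3
      rw [h9]
      refine (norm_add_le _ _).trans ?_
      have h10 := Pool.Agent.Q261.BD.Lam_gt u
      have h11 : 0 ≤ 2 * A * A := by positivity
      nlinarith
    have hz : (1 / 2 + v + u * I : ℂ) ∈ Metric.ball c 3 := by
      rw [mem_ball_iff_norm, hc]
      have e : (1 / 2 + v + u * I : ℂ) - (1 / 2 + (3 : ℝ) + u * I) = ((v - 3 : ℝ) : ℂ) := by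
        push_cast
        ring
      rw [e, Complex.norm_real, Real.norm_eq_abs, abs_lt]
      constructor <;> linarith
    have hd : ‖(1 / 2 + v + u * I : ℂ) - c‖ = 3 - v := by
      have e : (1 / 2 + v + u * I : ℂ) - c = ((v - 3 : ℝ) : ℂ) := by
        rw [hc]
        push_cast
        ring
      rw [e, Complex.norm_real, Real.norm_eq_abs, abs_of_nonpos (by linarith)]
      ring
    have hcar := (h1 F c 3 (by norm_num) (by
      intro z hz'
      have h3 := (hpos z (hmem z hz')).1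
      exact ((O.diff.analyticAt z).deriv.differentiableAt.div (O.diff z) h3).differentiableWithinAt)
      (fun z hz' => (hpos z (hmem z hz')).2) _ hz).1
    rw [hd] at hcar
    have h3 : (F c).re ≤ ‖F c‖ := Complex.re_le_norm _
    have h4 : 2 * (3 - v) / (3 - (3 - v)) * (F c).re ≤ 2 * (3 - v) / v * ‖F c‖ := by
      rw [show 3 - (3 - v) = v by ring]
      exact mul_le_mul_of_nonneg_left h3 (div_nonneg (by linarith) hv.le)
    have h5 : ‖F (1 / 2 + v + u * I)‖ ≤ ‖F c‖ + 2 * (3 - v) / v * ‖F c‖ := by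
      calc ‖F (1 / 2 + v + u * I)‖ = ‖F c + (F (1 / 2 + v + u * I) - F c)‖ := by
            congr 1
            ring
        _ ≤ ‖F c‖ + ‖F (1 / 2 + v + u * I) - F c‖ := norm_add_le _ _
        _ ≤ _ := by linarith
    have h6 : ‖F c‖ + 2 * (3 - v) / v * ‖F c‖ = (6 - v) * ‖F c‖ / v := by
      field_simp
      ring
    have h7 : ‖F (1 / 2 + v + u * I)‖ ≤ 6 * ((Cγ + 2 * A * A) * Lam u) / v := by
      rw [h6] at h5
      refine h5.trans (div_le_div_of_nonneg_right ?_ hv.le)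
      have h8 := norm_nonneg (F c)
      nlinarith
    refine h7.trans (div_le_div_of_nonneg_right ?_ hv.le)
    have h8 := Pool.Agent.Q261.BD.Lam_pos u
    nlinarith

end Pool.Agent.Q211.GB
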