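import Pool.Agent.Q211.GB.Bas
import Pool.Agent.Q241.SN.Grow3
import Pool.Agent.Q241.SN.LogEx

/-!
# Project GB (helper286), job FAR: the logarithm to the right of the critical line
-/

set_option autoImplicit false

namespace Pool.Agent.Q211.GB

open Complex MeasureTheory Filter Topology Set
open scoped ComplexConjugate
open Pool.Agent.Q286.BD (cl Lam ML)
open Pool.Agent.Q286.GB
open Q241.SN (GH exists_log)
open Pool.Agent.Q261.BD (Lam_gt Lam_pos logLam_gt ML_ge ML_pos ML_le_Lam ML_mul Lam_neg ML_neg Lam_mono ML_mono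
  ML_of_log)

theorem gh_conj {g : ℂ → ℂ} {C0 : ℝ} (h : GH g C0) : GH (conj ∘ g ∘ conj) C0 where
  diff z hz := differentiableAt_conj_conj_iff.2 (h.diff (conj z) (by rwa [conj_re]))
  hC0 := h.hC0
  low z hz hz1 := by
    have h1 := h.low (conj z) (by rwa [conj_re]) (by rwa [conj_re])
    rw [conj_im, abs_neg] at h1
    rw [deriv_conj_conj]
    simpa using h1
  bdd η hη := by
    obtain ⟨C, hC, hb⟩ := h.bdd η hη
    refine ⟨C, hC, fun z hz => ?_⟩
    simp only [Function.comp]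
    rw [Complex.norm_conj]
    exact hb (conj z) (by rwa [conj_re])

/-- the growth theorem in terms of `ML` -/
theorem gh_gr {g : ℂ → ℂ} {C0 : ℝ} (hGH : GH g C0) : ∃ C T0 : ℝ, 0 < C ∧ 16 ≤ T0 ∧
    ∀ t : ℝ, T0 ≤ t → ∀ x : ℝ, 0 < x → x ≤ 1 →
      ‖g (x + t * I)‖ ≤ C * (ML t * (1 + 1 / (x * Real.log (Lam t)))) := by
  obtain ⟨C, hC, hev⟩ := hGH.growth (η := 1 / 2) (by norm_num) le_rfl
  obtain ⟨T, hT⟩ := eventually_atTop.1 hev
  refine ⟨2 * C, max T 16, by positivity, le_max_right _ _, fun t ht x hx hx1 => ?_⟩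
  have h1 := hT t ((le_max_left _ _).trans ht) x hx (by linarith)
  have ht16 : 16 ≤ t := (le_max_right _ _).trans ht
  obtain ⟨a1, a2, a3⟩ := ML_of_log ht16
  set ℓ : ℝ := Real.log (Real.log t) with hℓ
  have hlt : 0 < Real.log t := Real.log_pos (by linarith)
  refine h1.trans ?_
  have h2 : Real.exp (-(x * ((ℓ - Real.log ℓ) / (1 / 2 + 1 / 2)))) ≤ 1 := by
    rw [Real.exp_le_one_iff]
    have h3 : Real.log ℓ ≤ ℓ := (Real.log_le_sub_one_of_pos (by linarith)).trans (by linarith)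
    have h4 : 0 ≤ (ℓ - Real.log ℓ) / (1 / 2 + 1 / 2) := div_nonneg (by linarith) (by norm_num)
    nlinarith
  have hL0 : 0 < Real.log (Lam t) := by linarith [logLam_gt t]
  have h3 : 1 / (x * ℓ) ≤ 2 * (1 / (x * Real.log (Lam t))) := by
    rw [mul_one_div, div_le_div_iff₀ (by positivity) (by positivity)]
    nlinarith
  have h4 : 0 < Real.log t / ℓ := by positivity
  have h5 : 0 < 1 / (x * Real.log (Lam t)) := by positivity
  have h5' : 0 < 1 / (x * ℓ) := by positivity
  calc C * (Real.log t / ℓ) * (1 + 1 / (x * ℓ)) * Real.exp (-(x * ((ℓ - Real.log ℓ) / (1 / 2 + 1 / 2))))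
      ≤ C * (Real.log t / ℓ) * (1 + 1 / (x * ℓ)) * 1 := mul_le_mul_of_nonneg_left h2 (by positivity)
    _ ≤ C * ML t * (1 + 2 * (1 / (x * Real.log (Lam t)))) * 1 := by
        refine mul_le_mul_of_nonneg_right ?_ zero_le_one
        refine mul_le_mul (mul_le_mul_of_nonneg_left a2 hC.le) (by linarith) (by positivity) ?_
        have := ML_pos t
        positivity
    _ ≤ 2 * C * (ML t * (1 + 1 / (x * Real.log (Lam t)))) := by
        have h6 := ML_pos t
        have h7 : 0 < C * ML t := by positivity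
        nlinarith

/-- the logarithm of `L` -/
theorem exists_lg (O : Obj) (hRH : RH O.toLFn) : ∃ g : ℂ → ℂ,
    (∀ z : ℂ, 0 < z.re → HasDerivAt g (deriv O.L (1 / 2 + z) / O.L (1 / 2 + z)) z) ∧
    (∀ z : ℂ, 0 < z.re → cexp (g z) = O.L (1 / 2 + z)) ∧
    ∃ B : ℝ, 0 ≤ B ∧ ∀ z : ℂ, 2 ≤ z.re → ‖g z‖ ≤ B := by
  obtain ⟨A, hA, hL, hL'⟩ := L_bd O.toLFn
  obtain ⟨A1, hA1, hL1⟩ := L_sub_one O.toLFn
  have hd : ∀ z : ℂ, HasDerivAt (fun z => O.L (1 / 2 + z)) (deriv O.L (1 / 2 + z)) z := fun z =>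
    (O.entire (1 / 2 + z)).hasDerivAt.comp_const_add (1 / 2) z
  obtain ⟨g, hg1, hg2⟩ := exists_log (Z := fun z => O.L (1 / 2 + z)) (fun z _ => (hd z).differentiableAt)
    (fun z hz => hRH _ (by
      rw [add_re]
      norm_num
      exact hz))
  have hg1' : ∀ z : ℂ, 0 < z.re → HasDerivAt g (deriv O.L (1 / 2 + z) / O.L (1 / 2 + z)) z := by
    intro z hz
    have h2 := hg1 z hz
    rw [(hd z).deriv] at h2
    exact h2
  refine ⟨g, hg1', hg2, ?_⟩
  -- far to the right
  obtain ⟨σ, hσ2, hσ⟩ : ∃ σ : ℝ, 4 ≤ σ ∧ A1 * (2 : ℝ) ^ (-(σ - 2)) ≤ 1 / 2 := by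
    obtain ⟨n, hn⟩ := exists_nat_ge (2 * A1 + 2)
    refine ⟨n + 4, by linarith [show (0 : ℝ) ≤ n from Nat.cast_nonneg n], ?_⟩
    have h2 : (2 : ℝ) ^ (-(((n : ℝ) + 4) - 2)) ≤ ((2 : ℝ) ^ n)⁻¹ := by
      rw [← Real.rpow_natCast, ← Real.rpow_neg (by norm_num)]
      exact Real.rpow_le_rpow_of_exponent_le (by norm_num) (by linarith)
    have h3 : (n : ℝ) ≤ (2 : ℝ) ^ n := by exact_mod_cast (Nat.lt_two_pow_self (n := n)).le
    calc A1 * (2 : ℝ) ^ (-(((n : ℝ) + 4) - 2)) ≤ A1 * ((2 : ℝ) ^ n)⁻¹ := mul_le_mul_of_nonneg_left h2 hA1.le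
      _ ≤ 1 / 2 := by
        rw [← div_eq_mul_inv, div_le_iff₀ (by positivity)]
        linarith
  obtain ⟨U, hU⟩ : ∃ U : Set ℂ, U = {z : ℂ | σ < z.re} := ⟨_, rfl⟩
  have hUm : ∀ z, z ∈ U ↔ σ < z.re := fun z => by rw [hU]; rfl
  have hUo : IsOpen U := by rw [hU]; exact isOpen_lt continuous_const Complex.continuous_re
  have hUc : Convex ℝ U := by rw [hU]; exact convex_halfSpace_re_gt σ
  have hre : ∀ z : ℂ, (1 / 2 + z).re = 1 / 2 + z.re := fun z => by simp
  have hL2 : ∀ z ∈ U, ‖O.L (1 / 2 + z) - 1‖ ≤ 1 / 2 := by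
    intro z hz
    rw [hUm] at hz
    refine (hL1 _ (by rw [hre]; linarith)).trans (le_trans ?_ hσ)
    apply mul_le_mul_of_nonneg_left _ hA1.le
    apply Real.rpow_le_rpow_of_exponent_le (by norm_num)
    rw [hre]
    linarith
  have hslit : ∀ z ∈ U, O.L (1 / 2 + z) ∈ slitPlane := by
    intro z hz
    left
    have h2 := (Complex.abs_re_le_norm _).trans (hL2 z hz)
    rw [sub_re, one_re, abs_le] at h2
    linarith [h2.1]
  have hU1 : ((σ + 1 : ℝ) : ℂ) ∈ U := by
    rw [hUm, ofReal_re]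
    linarith
  have hconst : ∀ z ∈ U, g z - Complex.log (O.L (1 / 2 + z)) =
      g ((σ + 1 : ℝ) : ℂ) - Complex.log (O.L (1 / 2 + ((σ + 1 : ℝ) : ℂ))) := by
    have hdd : ∀ z ∈ U, HasDerivAt (fun z => g z - Complex.log (O.L (1 / 2 + z))) 0 z := by
      intro z hz
      have h2 := (hg1' z (by rw [hUm] at hz; linarith)).sub ((hd z).clog (hslit z hz))
      rwa [sub_self] at h2
    intro z hz
    exact hUc.is_const_of_fderivWithin_eq_zero (𝕜 := ℂ)
      (f := fun z => g z - Complex.log (O.L (1 / 2 + z)))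
      (fun w hw => (hdd w hw).differentiableAt.differentiableWithinAt)
      (fun w hw => by
        rw [fderivWithin_of_isOpen hUo hw, (hdd w hw).hasFDerivAt.fderiv]
        ext
        simp) hz hU1
  have hlog : ∀ z ∈ U, ‖Complex.log (O.L (1 / 2 + z))‖ ≤ 1 := by
    intro z hz
    have h2 := Complex.norm_log_one_add_half_le_self (hL2 z hz)
    rw [add_sub_cancel] at h2
    have := hL2 z hz
    linarith
  set c0 : ℂ := g ((σ + 1 : ℝ) : ℂ) - Complex.log (O.L (1 / 2 + ((σ + 1 : ℝ) : ℂ))) with hc0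
  have hgU : ∀ z ∈ U, ‖g z‖ ≤ ‖c0‖ + 1 := by
    intro z hz
    have h2 := hconst z hz
    have h3 : g z = c0 + Complex.log (O.L (1 / 2 + z)) := by
      rw [← h2]
      ring
    rw [h3]
    exact (norm_add_le _ _).trans (by linarith [hlog z hz])
  refine ⟨‖c0‖ + 1 + 2 * A * A * (σ + 1), by positivity, fun z hz => ?_⟩
  have hV : Convex ℝ {z : ℂ | 2 ≤ z.re} := convex_halfSpace_re_ge 2
  have hz' : z + ((σ + 1 : ℝ) : ℂ) ∈ U := by
    rw [hUm, add_re, ofReal_re]
    linarith
  have h2 := hV.norm_image_sub_le_of_norm_hasDerivWithin_le (f := g)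
    (f' := fun z => deriv O.L (1 / 2 + z) / O.L (1 / 2 + z)) (C := 2 * A * A) (x := z + ((σ + 1 : ℝ) : ℂ))
    (y := z) (fun w hw => (hg1' w (by
      have hw' : 2 ≤ w.re := hw
      linarith)).hasDerivWithinAt) (fun w hw => by
      have hw' : 2 ≤ w.re := hw
      rw [div_eq_mul_inv, norm_mul]
      exact mul_le_mul (hL' _ (by rw [hre]; linarith)) (hL _ (by rw [hre]; linarith)).2.2 (norm_nonneg _)
        (by linarith)) (by
      change 2 ≤ (z + ((σ + 1 : ℝ) : ℂ)).re
      rw [add_re, ofReal_re]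
      linarith) hz
  have e : z - (z + ((σ + 1 : ℝ) : ℂ)) = ((-(σ + 1) : ℝ) : ℂ) := by
    push_cast
    ring
  rw [e, Complex.norm_real, Real.norm_eq_abs, abs_neg, abs_of_nonneg (by linarith)] at h2
  calc ‖g z‖ = ‖g (z + ((σ + 1 : ℝ) : ℂ)) + (g z - g (z + ((σ + 1 : ℝ) : ℂ)))‖ := by
        congr 1
        ring
    _ ≤ ‖g (z + ((σ + 1 : ℝ) : ℂ))‖ + ‖g z - g (z + ((σ + 1 : ℝ) : ℂ))‖ := norm_add_le _ _
    _ ≤ _ := by
        have h3 := hgU _ hz'
        linarith

theorem logLam_quarter (u : ℝ) : Real.log (Lam u) ≤ 2 * Real.log (Lam (u / 4)) := by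
  have h1 : Lam u ≤ 2 * Lam (u / 4) := by
    unfold Lam
    have h0 := abs_nonneg u
    have h2 : |u| + 16 ≤ (|u / 4| + 16) ^ 2 := by
      rw [abs_div, abs_of_pos (by norm_num : (0 : ℝ) < 4)]
      nlinarith
    have h3 := Real.log_le_log (by positivity) h2
    rw [Real.log_pow] at h3
    push_cast at h3
    exact h3
  have h2 := Real.log_le_log (Lam_pos u) h1
  rw [Real.log_mul (by norm_num) (Lam_pos _).ne'] at h2
  have h3 := logLam_gt (u / 4)
  have h4 := Real.log_two_lt_d9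
  linarith

/-- the bound for positive `u`, from the growth theorem -/
theorem far_pos {g G : ℂ → ℂ} {D C0 : ℝ} (hD : 0 < D) (hGH : GH G C0)
    (hG : ∀ x t : ℝ, 0 < x → ‖g ((4 * x : ℝ) + (4 * t : ℝ) * I)‖ = D * ‖G (x + t * I)‖) :
    ∃ C T : ℝ, 0 < C ∧ ∀ u v : ℝ, T ≤ u → 1 / Real.log (Lam u) ≤ v → v ≤ 2 →
      ‖g (v + u * I)‖ ≤ C * ML u := by
  obtain ⟨C, T0, hC, hT0, h1⟩ := gh_gr hGH
  refine ⟨9 * D * C, 4 * T0, by positivity, fun u v hu hv hv2 => ?_⟩
  have hLu : 0 < Real.log (Lam u) := by linarith [logLam_gt u]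
  have hLu4 : 0 < Real.log (Lam (u / 4)) := by linarith [logLam_gt (u / 4)]
  have hv0 : 0 < v := lt_of_lt_of_le (by positivity) hv
  have h2 := h1 (u / 4) (by linarith) (v / 4) (by positivity) (by linarith)
  have h3 := hG (v / 4) (u / 4) (by positivity)
  have e1 : 4 * (v / 4) = v := by ring
  have e2 : 4 * (u / 4) = u := by ring
  rw [e1, e2] at h3
  rw [h3]
  have h4 : ML (u / 4) ≤ ML u := ML_mono (by
    rw [abs_div, abs_of_pos (by norm_num : (0 : ℝ) < 4)]
    linarith [abs_nonneg u])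
  have h5 : 1 / (v / 4 * Real.log (Lam (u / 4))) ≤ 8 := by
    rw [div_le_iff₀ (by positivity)]
    rw [div_le_iff₀ hLu] at hv
    have h6 := logLam_quarter u
    nlinarith
  have h6 : 0 < 1 / (v / 4 * Real.log (Lam (u / 4))) := by positivity
  have h7 := ML_pos (u / 4)
  calc D * ‖G ((v / 4 : ℝ) + (u / 4 : ℝ) * I)‖
      ≤ D * (C * (ML (u / 4) * (1 + 1 / (v / 4 * Real.log (Lam (u / 4)))))) :=
        mul_le_mul_of_nonneg_left h2 hD.le
    _ ≤ D * (C * (ML u * 9)) := by
        apply mul_le_mul_of_nonneg_left _ hD.le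
        apply mul_le_mul_of_nonneg_left _ hC.le
        exact mul_le_mul h4 (by linarith) (by linarith) (by linarith)
    _ = _ := by ring

/-- job FAR -/
theorem t_FAR (h1 : S_POS) (h2 : S_FB) : S_FAR := by
  intro O hRH
  obtain ⟨g, hg1, hg2, B, hB, hgB⟩ := exists_lg O hRH
  obtain ⟨CF, hCF, hF1, -⟩ := h2 O hRH
  obtain ⟨hpos, -, -⟩ := h1 O hRH
  obtain ⟨Cγ, hCγ, hγ⟩ := O.γ_ld (9 / 2)
  have hη := O.η_pos
  have hre : ∀ z : ℂ, (1 / 2 + z).re = 1 / 2 + z.re := fun z => by simp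
  have him : ∀ z : ℂ, (1 / 2 + z).im = z.im := fun z => by simp
  -- the rescaled function
  set D : ℝ := 8 * Cγ + 1 with hD
  have hD0 : 0 < D := by positivity
  set G : ℂ → ℂ := fun z => g (4 * z) / D with hG
  have h4re : ∀ z : ℂ, (4 * z).re = 4 * z.re := fun z => by simp
  have h4im : ∀ z : ℂ, (4 * z).im = 4 * z.im := fun z => by simp
  have hGd : ∀ z : ℂ, 0 < z.re → HasDerivAt G
      (deriv O.L (1 / 2 + 4 * z) / O.L (1 / 2 + 4 * z) * 4 / D) z := by
    intro z hz
    have h3 : HasDerivAt (fun z : ℂ => 4 * z) 4 z := by simpa using (hasDerivAt_id z).const_mul (4 : ℂ)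
    exact ((hg1 (4 * z) (by rw [h4re]; linarith)).comp z h3).div_const _
  have hGH : GH G 1 := by
    refine ⟨fun z hz => (hGd z hz).differentiableAt, zero_le_one, fun z hz hz1 => ?_, fun η hη => ?_⟩
    · rw [(hGd z hz).deriv]
      have hs : (1 / 2 : ℝ) < (1 / 2 + 4 * z).re := by rw [hre, h4re]; linarith
      have hLne : O.L (1 / 2 + 4 * z) ≠ 0 := hRH _ hs
      have hld := X_ld O (s := 1 / 2 + 4 * z) (by linarith) hLne
      have hp := (hpos _ hs).2
      have hγ1 := hγ (1 / 2 + 4 * z) (by linarith) (by rw [hre, h4re]; linarith)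
      have hγ0 := O.γ_ne (1 / 2 + 4 * z) (by linarith)
      rw [him, h4im] at hγ1
      have h5 : ‖deriv O.γ (1 / 2 + 4 * z) / O.γ (1 / 2 + 4 * z)‖ ≤ Cγ * Real.log (|4 * z.im| + 16) := by
        rw [norm_div, div_le_iff₀ (norm_pos_iff.2 hγ0)]
        exact hγ1
      have h6 := (Complex.re_le_norm _).trans h5
      have h7 : (deriv O.X (1 / 2 + 4 * z) / O.X (1 / 2 + 4 * z)).re =
          (deriv O.γ (1 / 2 + 4 * z) / O.γ (1 / 2 + 4 * z)).re +
          (deriv O.L (1 / 2 + 4 * z) / O.L (1 / 2 + 4 * z)).re := by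
        rw [hld, add_re]
      have e1 : (deriv O.L (1 / 2 + 4 * z) / O.L (1 / 2 + 4 * z) * 4 / D).re =
          4 / D * (deriv O.L (1 / 2 + 4 * z) / O.L (1 / 2 + 4 * z)).re := by
        have e2 : deriv O.L (1 / 2 + 4 * z) / O.L (1 / 2 + 4 * z) * 4 / D =
            ((4 / D : ℝ) : ℂ) * (deriv O.L (1 / 2 + 4 * z) / O.L (1 / 2 + 4 * z)) := by
          push_cast
          ring
        rw [e2, Complex.re_ofReal_mul]
      rw [e1]
      have h8 : Real.log (|4 * z.im| + 16) ≤ Real.log (|z.im| + 3) + 2 := by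
        have h9 : |4 * z.im| + 16 ≤ (|z.im| + 3) * 6 := by
          rw [abs_mul, abs_of_pos (by norm_num : (0 : ℝ) < 4)]
          linarith [abs_nonneg z.im]
        have h10 := Real.log_le_log (by positivity) h9
        rw [Real.log_mul (by positivity) (by norm_num)] at h10
        have h11 : Real.log 6 ≤ 2 := by
          rw [Real.log_le_iff_le_exp (by norm_num)]
          have h12 : Real.exp 2 = Real.exp 1 * Real.exp 1 := by
            rw [← Real.exp_add]
            norm_num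
          rw [h12]
          have := Real.exp_one_gt_d9
          nlinarith
        linarith
      have h9 : -(Cγ * (Real.log (|z.im| + 3) + 2)) ≤
          (deriv O.L (1 / 2 + 4 * z) / O.L (1 / 2 + 4 * z)).re := by
        have h10 : Cγ * Real.log (|4 * z.im| + 16) ≤ Cγ * (Real.log (|z.im| + 3) + 2) :=
          mul_le_mul_of_nonneg_left h8 hCγ.le
        linarith
      have h10 : 0 ≤ Real.log (|z.im| + 3) + 2 := by
        have : 0 ≤ Real.log (|z.im| + 3) := Real.log_nonneg (by linarith [abs_nonneg z.im])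
        linarith
      have h11 : 4 / D * -(Cγ * (Real.log (|z.im| + 3) + 2)) ≤
          4 / D * (deriv O.L (1 / 2 + 4 * z) / O.L (1 / 2 + 4 * z)).re :=
        mul_le_mul_of_nonneg_left h9 (by positivity)
      refine le_trans ?_ h11
      have h12 : 4 / D * Cγ ≤ 1 / 2 := by
        rw [div_mul_eq_mul_div, div_le_iff₀ hD0, hD]
        linarith
      have h13 : 4 / D * Cγ * (Real.log (|z.im| + 3) + 2) ≤ 1 / 2 * (Real.log (|z.im| + 3) + 2) :=
        mul_le_mul_of_nonneg_right h12 h10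
      linarith
    · refine ⟨1 + B, by linarith, fun z hz => ?_⟩
      have h3 := hgB (4 * z) (by rw [h4re]; linarith)
      rw [hG]
      simp only
      rw [norm_div, Complex.norm_real, Real.norm_eq_abs, abs_of_pos hD0, div_le_iff₀ hD0]
      have : 1 ≤ D := by rw [hD]; linarith
      nlinarith
  obtain ⟨C1, T1, hC1, hp1⟩ := far_pos (g := g) hD0 hGH (by
    intro x t hx
    rw [hG]
    simp only
    rw [norm_div, Complex.norm_real, Real.norm_eq_abs, abs_of_pos hD0, mul_div_cancel₀ _ hD0.ne']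
    congr 2
    push_cast
    ring)
  obtain ⟨C2, T2, hC2, hp2⟩ := far_pos (g := conj ∘ g ∘ conj) hD0 (gh_conj hGH) (by
    intro x t hx
    rw [hG]
    simp only [Function.comp]
    rw [Complex.norm_conj, Complex.norm_conj, norm_div, Complex.norm_real, Real.norm_eq_abs, abs_of_pos hD0,
      mul_div_cancel₀ _ hD0.ne']
    congr 2
    apply Complex.ext <;> simp)
  -- compactness
  set T : ℝ := max (max T1 T2) 1 with hT
  have hT0 : 1 ≤ T := le_max_right _ _
  have hLT : 0 < Real.log (Lam T) := by linarith [logLam_gt T]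
  have hK : IsCompact (Icc (1 / Real.log (Lam T)) 2 ×ℂ Icc (-T) T) := isCompact_Icc.reProdIm isCompact_Icc
  have hcont : ContinuousOn g (Icc (1 / Real.log (Lam T)) 2 ×ℂ Icc (-T) T) := by
    intro z hz
    rw [Complex.mem_reProdIm] at hz
    have h3 : 0 < z.re := lt_of_lt_of_le (by positivity) hz.1.1
    exact (hg1 z h3).continuousAt.continuousWithinAt
  obtain ⟨C3, hC3⟩ := hK.exists_bound_of_continuousOn hcont
  have hmain : ∀ u v : ℝ, 1 / Real.log (Lam u) ≤ v → v ≤ 2 → ‖g (v + u * I)‖ ≤ (C1 + C2 + |C3|) * ML u := by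
    intro u v hv hv2
    have hM := ML_ge u
    have hM0 := ML_pos u
    have hLu : 0 < Real.log (Lam u) := by linarith [logLam_gt u]
    have hC3' := abs_nonneg C3
    rcases le_total T |u| with hc | hc
    · rcases le_total 0 u with h0 | h0
      · rw [abs_of_nonneg h0] at hc
        refine (hp1 u v (by linarith [le_max_left (max T1 T2) 1, le_max_left T1 T2]) hv hv2).trans ?_
        exact mul_le_mul_of_nonneg_right (by linarith) hM0.le
      · rw [abs_of_nonpos h0] at hc
        have h3 := hp2 (-u) v (by linarith [le_max_left (max T1 T2) 1, le_max_right T1 T2]) (by rwa [Lam_neg]) hv2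
        simp only [Function.comp] at h3
        rw [Complex.norm_conj, ML_neg] at h3
        have e1 : conj ((v : ℂ) + ((-u : ℝ) : ℂ) * I) = v + u * I := by
          apply Complex.ext <;> simp
        rw [e1] at h3
        exact h3.trans (mul_le_mul_of_nonneg_right (by linarith) hM0.le)
    · have h3 : 1 / Real.log (Lam T) ≤ v := by
        refine le_trans ?_ hv
        apply one_div_le_one_div_of_le hLu
        apply Real.log_le_log (Lam_pos u)
        apply Lam_mono
        rw [abs_of_nonneg (by linarith : 0 ≤ T)]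
        exact hc
      have h4 := hC3 ((v : ℂ) + u * I) (by
        rw [Complex.mem_reProdIm]
        simp only [add_re, ofReal_re, mul_re, I_re, mul_zero, ofReal_im, I_im, mul_one, sub_self, add_zero,
          add_im, mul_im, zero_add, mem_Icc]
        rw [abs_le] at hc
        exact ⟨⟨h3, hv2⟩, hc⟩)
      have h5 := le_abs_self C3
      nlinarith
  refine ⟨C1 + C2 + |C3| + (CF + 1), by positivity, fun u v hv => ?_⟩
  have hM := ML_ge u
  have hLu : 0 < Real.log (Lam u) := by linarith [logLam_gt u]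
  have hv0 : 0 < v := lt_of_lt_of_le (by positivity) hv
  have epos : (1 / 2 + v + u * I : ℂ) = 1 / 2 + (v + u * I) := by ring
  have hzre : ((v : ℂ) + u * I).re = v := by simp
  rcases le_total v 2 with hv2 | hv2
  · have h3 := hmain u v hv hv2
    have h4 := hg2 (v + u * I) (by rw [hzre]; exact hv0)
    rw [epos, ← h4, Complex.norm_exp, Real.log_exp]
    refine (Complex.abs_re_le_norm _).trans (h3.trans ?_)
    apply mul_le_mul_of_nonneg_right _ (by linarith)
    linarith
  · obtain ⟨a1, a2, a3⟩ := hF1 (1 / 2 + v + u * I) (by rw [epos, hre, hzre]; linarith)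
    have hne : O.L (1 / 2 + v + u * I) ≠ 0 := hRH _ (by rw [epos, hre, hzre]; linarith)
    have hn := norm_pos_iff.2 hne
    have h5 : Real.log ‖O.L (1 / 2 + v + u * I)‖ ≤ CF := by
      have := Real.log_le_sub_one_of_pos hn
      linarith
    have h6 : -CF ≤ Real.log ‖O.L (1 / 2 + v + u * I)‖ := by
      rw [norm_inv] at a2
      have := Real.log_le_sub_one_of_pos (inv_pos.2 hn)
      rw [Real.log_inv] at this
      linarith
    have h7 : |Real.log ‖O.L (1 / 2 + v + u * I)‖| ≤ CF := abs_le.2 ⟨h6, h5⟩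
    refine h7.trans ?_
    have h8 : 0 ≤ C1 + C2 + |C3| := by positivity
    nlinarith

end Pool.Agent.Q211.GB
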