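import Pool.Agent.Q211.GB.Far

/-!
# Project GB (helper286), job LD: the logarithmic derivative
-/

set_option autoImplicit false

namespace Pool.Agent.Q211.GB

open Complex MeasureTheory Filter Topology Set
open scoped ComplexConjugate
open Pool.Agent.Q286.BD (cl Lam ML)
open Pool.Agent.Q286.GB
open Pool.Agent.Q261.BD (Lam_gt Lam_pos logLam_gt ML_ge ML_pos ML_le_Lam ML_mul Lam_neg ML_neg Lam_mono ML_mono
  ML_of_log Lam_shift ML_shift)

/-- Cauchy and Caratheodory: a bound for the derivative from a bound for the real part -/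
theorem car_deriv (h1 : S_CAR) {g : ℂ → ℂ} {c : ℂ} {R M : ℝ} (hR : 0 < R)
    (hg : ∀ z ∈ Metric.ball c R, DifferentiableAt ℂ g z) (hM : ∀ z ∈ Metric.ball c R, |(g z).re| ≤ M) :
    ‖deriv g c‖ ≤ 8 * M / R := by
  have hcm : c ∈ Metric.ball c R := Metric.mem_ball_self hR
  have hM0 : 0 ≤ M := (abs_nonneg _).trans (hM c hcm)
  have hF := h1 (fun z => (M : ℂ) - g z) c R hR
    (fun z hz => ((differentiableAt_const _).sub (hg z hz)).differentiableWithinAt)
    (fun z hz => by
      rw [sub_re, ofReal_re]
      have h2 := (abs_le.1 (hM z hz)).2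
      linarith)
  have hsub : ∀ z ∈ Metric.closedBall c (R / 2), z ∈ Metric.ball c R := fun z hz =>
    Metric.closedBall_subset_ball (by linarith) hz
  have h3 := Complex.norm_deriv_le_of_forall_mem_sphere_norm_le (c := c) (R := R / 2) (C := 4 * M)
    (f := fun z => g z - g c) (by positivity) (by
      refine DifferentiableOn.diffContOnCl fun z hz => ?_
      have hz2 : z ∈ Metric.closedBall c (R / 2) := Metric.closure_ball_subset_closedBall hz
      exact ((hg z (hsub z hz2)).sub (differentiableAt_const _)).differentiableWithinAt) (by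
      intro z hz
      have hz2 : z ∈ Metric.closedBall c (R / 2) := Metric.sphere_subset_closedBall hz
      have h4 := (hF z (hsub z hz2)).1
      rw [mem_sphere_iff_norm] at hz
      rw [hz, sub_re, ofReal_re] at h4
      have h5 := (abs_le.1 (hM c hcm)).1
      have e1 : ((M : ℂ) - g z) - ((M : ℂ) - g c) = -(g z - g c) := by ring
      rw [e1, norm_neg] at h4
      have e2 : 2 * (R / 2) / (R - R / 2) = 2 := by field_simp; norm_num
      rw [e2] at h4
      linarith)
  rw [deriv_sub_const] at h3
  refine h3.trans (le_of_eq ?_)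
  field_simp
  ring

/-- job LD -/
theorem t_LD (h1 : S_CAR) (h2 : S_POS) (_h3 : S_FB) (h4 : S_FAR) : S_LD := by
  intro O hRH
  obtain ⟨g, hg1, hg2, -⟩ := exists_lg O hRH
  obtain ⟨C, hC, hfar⟩ := h4 O hRH
  obtain ⟨hpos, -, -⟩ := h2 O hRH
  obtain ⟨Cγ, hCγ, hγ⟩ := O.γ_ld 3
  have hη := O.η_pos
  have hre : ∀ z : ℂ, (1 / 2 + z).re = 1 / 2 + z.re := fun z => by simp
  have hzre : ∀ v u : ℝ, ((v : ℂ) + u * I).re = v := fun v u => by simp
  have hzim : ∀ v u : ℝ, ((v : ℂ) + u * I).im = u := fun v u => by simp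
  have epos : ∀ v u : ℝ, (1 / 2 + v + u * I : ℂ) = 1 / 2 + (v + u * I) := fun v u => by ring
  have him : ∀ z : ℂ, (1 / 2 + z).im = z.im := fun z => by simp
  -- the first case
  have hA : ∀ u v : ℝ, 2 / Real.log (Lam u) ≤ v → v ≤ 2 →
      ‖deriv O.L (1 / 2 + v + u * I) / O.L (1 / 2 + v + u * I)‖ ≤ 64 * C * ML u / v := by
    intro u v hv hv2
    have hLu : 0 < Real.log (Lam u) := by linarith [logLam_gt u]
    have hv0 : 0 < v := lt_of_lt_of_le (by positivity) hv
    have hball : ∀ z ∈ Metric.ball ((v : ℂ) + u * I) (v / 4), 3 / 4 * v ≤ z.re ∧ |z.im - u| ≤ 1 := by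
      intro z hz
      rw [mem_ball_iff_norm] at hz
      have h5 := (Complex.abs_re_le_norm _).trans hz.le
      have h6 := (Complex.abs_im_le_norm _).trans hz.le
      rw [sub_re, hzre, abs_le] at h5
      rw [sub_im, hzim] at h6
      exact ⟨by linarith [h5.1], by linarith⟩
    have h5 := car_deriv h1 (g := g) (c := (v : ℂ) + u * I) (R := v / 4) (M := 2 * C * ML u) (by positivity)
      (fun z hz => (hg1 z (by linarith [(hball z hz).1])).differentiableAt) (fun z hz => by
        obtain ⟨b1, b2⟩ := hball z hz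
        have hz0 : 0 < z.re := by linarith
        have h6 : Real.log (Lam u) ≤ 3 / 2 * Real.log (Lam z.im) := by
          have h7 : Lam u ≤ Lam z.im * (1 + 1 / 16) := by
            have h8 := Lam_shift (t := u) (u := z.im) (by rwa [abs_sub_comm])
            have h9 := Lam_gt z.im
            linarith
          have h8 := Real.log_le_log (Lam_pos u) h7
          rw [Real.log_mul (Lam_pos _).ne' (by norm_num)] at h8
          have h9 := Real.log_le_sub_one_of_pos (x := 1 + 1 / 16) (by norm_num)
          have h10 := logLam_gt z.im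
          linarith
        have hLz : 0 < Real.log (Lam z.im) := by linarith [logLam_gt z.im]
        have h7 : 1 / Real.log (Lam z.im) ≤ z.re := by
          rw [div_le_iff₀ hLz]
          rw [div_le_iff₀ hLu] at hv
          have h8 : v * Real.log (Lam u) ≤ v * (3 / 2 * Real.log (Lam z.im)) :=
            mul_le_mul_of_nonneg_left h6 hv0.le
          have h9 : 3 / 4 * v * Real.log (Lam z.im) ≤ z.re * Real.log (Lam z.im) :=
            mul_le_mul_of_nonneg_right b1 hLz.le
          nlinarith
        have h8 := hfar z.im z.re h7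
        have e1 : (1 / 2 + (z.re : ℂ) + z.im * I) = 1 / 2 + z := by
          rw [epos, Complex.re_add_im]
        rw [e1, ← hg2 z hz0, Complex.norm_exp, Real.log_exp] at h8
        refine h8.trans ?_
        have h9 := ML_shift b2
        nlinarith)
    rw [(hg1 _ (by rw [hzre]; exact hv0)).deriv, ← epos] at h5
    refine h5.trans (le_of_eq ?_)
    field_simp
    ring
  -- the gamma factor
  have hG : ∀ u v : ℝ, 0 < v → v ≤ 2 →
      ‖deriv O.γ (1 / 2 + v + u * I) / O.γ (1 / 2 + v + u * I)‖ ≤ Cγ * Lam u := by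
    intro u v hv hv2
    have h5 := hγ (1 / 2 + v + u * I) (by rw [epos, hre, hzre]; linarith) (by rw [epos, hre, hzre]; linarith)
    have h6 := O.γ_ne (1 / 2 + v + u * I) (by rw [epos, hre, hzre]; linarith)
    have h7 : (1 / 2 + v + u * I : ℂ).im = u := by rw [epos, him, hzim]
    rw [h7] at h5
    rw [norm_div, div_le_iff₀ (norm_pos_iff.2 h6)]
    exact h5
  refine ⟨64 * C + 5 * (Cγ + 32 * C) + Cγ, by positivity, fun u v hv hv1 => ?_⟩
  have hLu : 0 < Real.log (Lam u) := by linarith [logLam_gt u]
  have hM := ML_pos u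
  have hL := Lam_pos u
  have hMv : 0 < ML u / v := by positivity
  rcases le_total (2 / Real.log (Lam u)) v with hc | hc
  · refine (hA u v hc (by linarith)).trans ?_
    rw [mul_div_assoc]
    have h5 : 0 < Cγ * Lam u := by positivity
    have h6 : 0 < C * Lam u := by positivity
    have h7 : 0 < C * (ML u / v) := by positivity
    have h8 : 0 < Cγ * (ML u / v) := by positivity
    linarith
  · set v1 : ℝ := 2 / Real.log (Lam u) with hv1d
    have hv10 : 0 < v1 := by positivity
    have hv12 : v1 ≤ 2 := by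
      rw [hv1d, div_le_iff₀ hLu]
      linarith [logLam_gt u]
    set F : ℂ → ℂ := fun s => deriv O.X s / O.X s with hF
    set c : ℂ := 1 / 2 + (v1 : ℝ) + u * I with hcd
    have hcre : c.re = 1 / 2 + v1 := by rw [hcd, epos, hre, hzre]
    have hXL : ∀ w : ℝ, 0 < w → F (1 / 2 + w + u * I) =
        deriv O.γ (1 / 2 + w + u * I) / O.γ (1 / 2 + w + u * I) +
        deriv O.L (1 / 2 + w + u * I) / O.L (1 / 2 + w + u * I) := by
      intro w hw
      have h5 : (1 / 2 : ℝ) < (1 / 2 + w + u * I : ℂ).re := by rw [epos, hre, hzre]; linarith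
      exact X_ld O (by linarith) (hRH _ h5)
    have hFc : ‖F c‖ ≤ (Cγ + 32 * C) * Lam u := by
      rw [hcd, hXL v1 hv10]
      refine (norm_add_le _ _).trans ?_
      have h5 := hG u v1 hv10 hv12
      have h6 := hA u v1 le_rfl hv12
      have h7 : 64 * C * ML u / v1 = 32 * C * Lam u := by
        rw [← ML_mul u, hv1d]
        field_simp
        norm_num
      rw [h7] at h6
      linarith
    have hmem : ∀ z ∈ Metric.ball c v1, 1 / 2 < z.re := by
      intro z hz
      rw [mem_ball_iff_norm] at hz
      have h5 := (Complex.abs_re_le_norm (z - c)).trans_lt hz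
      rw [sub_re, abs_lt] at h5
      linarith [h5.1]
    have hd : ‖(1 / 2 + v + u * I : ℂ) - c‖ = v1 - v := by
      have e : (1 / 2 + v + u * I : ℂ) - c = ((v - v1 : ℝ) : ℂ) := by
        rw [hcd]
        push_cast
        ring
      rw [e, Complex.norm_real, Real.norm_eq_abs, abs_of_nonpos (by linarith)]
      ring
    have hz : (1 / 2 + v + u * I : ℂ) ∈ Metric.ball c v1 := by
      rw [mem_ball_iff_norm, hd]
      linarith
    have hcar := (h1 F c v1 hv10 (by
      intro z hz'
      have h3 := (hpos z (hmem z hz')).1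
      exact ((O.diff.analyticAt z).deriv.differentiableAt.div (O.diff z) h3).differentiableWithinAt)
      (fun z hz' => (hpos z (hmem z hz')).2) _ hz).1
    rw [hd] at hcar
    have h3 : (F c).re ≤ (Cγ + 32 * C) * Lam u := (Complex.re_le_norm _).trans hFc
    have hK : 0 < Cγ + 32 * C := by positivity
    have h5 : 2 * (v1 - v) / (v1 - (v1 - v)) * (F c).re ≤ 4 * (Cγ + 32 * C) * (ML u / v) := by
      rw [show v1 - (v1 - v) = v by ring]
      calc 2 * (v1 - v) / v * (F c).re ≤ 2 * (v1 - v) / v * ((Cγ + 32 * C) * Lam u) :=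
            mul_le_mul_of_nonneg_left h3 (div_nonneg (by linarith) hv.le)
        _ ≤ 2 * v1 / v * ((Cγ + 32 * C) * Lam u) := by
            apply mul_le_mul_of_nonneg_right _ (by positivity)
            exact div_le_div_of_nonneg_right (by linarith) hv.le
        _ = 4 * (Cγ + 32 * C) * (ML u / v) := by
            rw [← ML_mul u, hv1d]
            field_simp
            norm_num
    have h6 : ‖F (1 / 2 + v + u * I)‖ ≤ (Cγ + 32 * C) * Lam u + 4 * (Cγ + 32 * C) * (ML u / v) := by
      calc ‖F (1 / 2 + v + u * I)‖ = ‖F c + (F (1 / 2 + v + u * I) - F c)‖ := by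
            congr 1
            ring
        _ ≤ ‖F c‖ + ‖F (1 / 2 + v + u * I) - F c‖ := norm_add_le _ _
        _ ≤ _ := by linarith
    have h7 : deriv O.L (1 / 2 + v + u * I) / O.L (1 / 2 + v + u * I) =
        F (1 / 2 + v + u * I) - deriv O.γ (1 / 2 + v + u * I) / O.γ (1 / 2 + v + u * I) := by
      rw [hXL v hv]
      ring
    rw [h7]
    refine (norm_sub_le _ _).trans ?_
    have h8 := hG u v hv (by linarith)
    have h9 : 0 < Cγ * (ML u / v) := by positivity
    have h10 : 0 < C * Lam u := by positivity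
    have h11 : 0 < C * (ML u / v) := by positivity
    have h12 : 0 < Cγ * Lam u := by positivity
    nlinarith

end Pool.Agent.Q211.GB
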