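import Pool.Agent.Q286.GB.Stm
import Pool.Agent.Q237.BD.Vert

/-!
# Project GB (helper286), job PRH: Perron's formula on the critical line

Adapted from `Pool/Agent/Q237/BD/PerRH.lean`.
-/

set_option autoImplicit false

namespace Pool.Agent.Q211.GB

open Complex MeasureTheory Filter Topology Set
open Pool.Agent.Q286.BD (cl Lam ML Lap Wt V Fm)
open Pool.Agent.Q286.GB
open Pool.Agent.Q237.BD (vint vshift growth wt_int Lap_diff)

theorem inv_bound (h2 : S_LOWB) (O : Obj) (hRH : RH O.toLFn) : ∃ C : ℝ, 1 ≤ C ∧ ∀ (x0 : ℝ) (s : ℂ), 0 < x0 →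
    1 / 2 + x0 ≤ s.re → ‖(O.L s)⁻¹‖ ≤ C * (|s.im| + 16) ^ (C * Real.log (2 + 1 / x0)) := by
  obtain ⟨C1, hC1, hb⟩ := h2 O hRH
  refine ⟨max C1 1, le_max_right _ _, fun x0 s hx0 hs => ?_⟩
  set C : ℝ := max C1 1
  have hCC1 : C1 ≤ C := le_max_left _ _
  have hCC : 1 ≤ C := le_max_right _ _
  have hl : 0 ≤ Real.log (2 + 1 / x0) := Real.log_nonneg (by
    have : 0 < 1 / x0 := by positivity
    linarith)
  have hbase : 1 ≤ |s.im| + 16 := by
    have := abs_nonneg s.im
    linarith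
  have hx := hb s.im (s.re - 1 / 2) (by linarith)
  have e1 : (1 / 2 + ((s.re - 1 / 2 : ℝ) : ℂ) + s.im * I : ℂ) = s := by
    push_cast
    have := Complex.re_add_im s
    linear_combination this
  rw [e1] at hx
  have e2 : Real.log (2 + 1 / (s.re - 1 / 2)) ≤ Real.log (2 + 1 / x0) := by
    apply Real.log_le_log
    · have : 0 < 1 / (s.re - 1 / 2) := by
        apply div_pos one_pos
        linarith
      linarith
    · have : 1 / (s.re - 1 / 2) ≤ 1 / x0 := by
        apply one_div_le_one_div_of_le hx0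
        linarith
      linarith
  have e3 : 0 ≤ Lam s.im := Real.log_nonneg hbase
  have e4 : C1 * Lam s.im * Real.log (2 + 1 / (s.re - 1 / 2)) ≤
      C * Lam s.im * Real.log (2 + 1 / x0) := by
    have e8 : 0 ≤ Real.log (2 + 1 / (s.re - 1 / 2)) := Real.log_nonneg (by
      have : 0 < 1 / (s.re - 1 / 2) := by
        apply div_pos one_pos
        linarith
      linarith)
    gcongr
  have e5 : Real.exp (-(C * Lam s.im * Real.log (2 + 1 / x0))) ≤ ‖O.L s‖ :=
    (Real.exp_le_exp.2 (neg_le_neg e4)).trans hx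
  have e6 : ‖(O.L s)⁻¹‖ ≤ Real.exp (C * Lam s.im * Real.log (2 + 1 / x0)) := by
    rw [norm_inv]
    rw [Real.exp_neg] at e5
    rw [inv_le_comm₀ (lt_of_lt_of_le (by positivity) e5) (Real.exp_pos _)]
    exact e5
  have e7 : Real.exp (C * Lam s.im * Real.log (2 + 1 / x0)) =
      (|s.im| + 16) ^ (C * Real.log (2 + 1 / x0)) := by
    rw [Real.rpow_def_of_pos (by linarith)]
    congr 1
    unfold Lam
    ring
  rw [e7] at e6
  calc ‖(O.L s)⁻¹‖ ≤ 1 * (|s.im| + 16) ^ (C * Real.log (2 + 1 / x0)) := by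
        rw [one_mul]
        exact e6
    _ ≤ _ := by gcongr

/-- the integrand -/
noncomputable def Fi (O : LFn) (φ : ℝ → ℝ) (L t : ℝ) (z : ℂ) : ℂ := (O.L (cl t + z / L))⁻¹ * Lap φ z / z

theorem Fi_bound (h2 : S_LOWB) (O : Obj) (hRH : RH O.toLFn) {β : ℝ} {φ : ℝ → ℝ} (hβ : 0 < β) (h : Wt β φ)
    {L a b t : ℝ} (hL : 0 < L) (ha : 0 < a) : ∃ M : ℝ, 0 < M ∧ ∀ z : ℂ, a ≤ z.re → z.re ≤ b →
    ‖Fi O.toLFn φ L t z‖ ≤ M / (1 + z.im ^ 2) := by
  obtain ⟨C, hC, hG⟩ := inv_bound h2 O hRH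
  obtain ⟨ε, C1, c, hε, hC1, hc, hdec⟩ := h.dec
  set p : ℝ := C * Real.log (2 + 1 / (a / L)) with hp
  have haL : 0 < a / L := by positivity
  have hp0 : 0 ≤ p := by
    have : 0 ≤ Real.log (2 + 1 / (a / L)) := Real.log_nonneg (by
      have : 0 < 1 / (a / L) := by positivity
      linarith)
    positivity
  obtain ⟨M, hM, hgr⟩ := growth (|t| + 16) p c β hc hβ (by positivity) hp0
  refine ⟨C * (1 + 1 / L) ^ p * (C1 * Real.exp b) / a * M, by positivity, fun z hz1 hz2 => ?_⟩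
  have hz0 : z ≠ 0 := by
    intro h0
    rw [h0] at hz1
    simp at hz1
    linarith
  have hre : (cl t + z / L).re = 1 / 2 + z.re / L := by
    simp [cl]
  have him : (cl t + z / L).im = t + z.im / L := by
    simp [cl]
  have b1 := hG (a / L) (cl t + z / L) haL (by
    rw [hre]
    gcongr)
  rw [him, ← hp] at b1
  have b2 : (|t + z.im / L| + 16) ^ p ≤ (1 + 1 / L) ^ p * (|t| + 16 + |z.im|) ^ p := by
    rw [← Real.mul_rpow (by positivity) (by positivity)]
    apply Real.rpow_le_rpow (by positivity) _ hp0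
    have h3 : |t + z.im / L| ≤ |t| + |z.im| / L := by
      have := abs_add_le t (z.im / L)
      rwa [abs_div, abs_of_pos hL] at this
    have h4 : 0 ≤ 1 / L * (|t| + 16) := by positivity
    have h5 : 0 ≤ |z.im| := abs_nonneg _
    have h6 : (1 + 1 / L) * (|t| + 16 + |z.im|) = (|t| + 16 + |z.im| / L) + 1 / L * (|t| + 16) + |z.im| := by
      field_simp
      ring
    rw [h6]
    linarith
  have b3 : ‖Lap φ z‖ ≤ C1 * Real.exp b * Real.exp (-(c * |z.im| ^ β)) := by
    refine (hdec z).trans ?_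
    rw [mul_assoc, ← Real.exp_add]
    apply mul_le_mul_of_nonneg_left _ hC1.le
    apply Real.exp_le_exp.2
    have h7 : max z.re 0 = z.re := max_eq_left (by linarith)
    have h8 : 0 ≤ ε * max (-z.re) 0 := mul_nonneg hε.le (le_max_right _ _)
    rw [h7]
    linarith
  have b4 : a ≤ ‖z‖ := hz1.trans (Complex.re_le_norm z)
  unfold Fi
  rw [norm_div, norm_mul]
  calc ‖(O.L (cl t + z / L))⁻¹‖ * ‖Lap φ z‖ / ‖z‖
      ≤ (C * ((1 + 1 / L) ^ p * (|t| + 16 + |z.im|) ^ p)) *
          (C1 * Real.exp b * Real.exp (-(c * |z.im| ^ β))) / a := by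
        gcongr
        refine b1.trans ?_
        gcongr
    _ = C * (1 + 1 / L) ^ p * (C1 * Real.exp b) / a *
          ((|t| + 16 + |z.im|) ^ p * Real.exp (-(c * |z.im| ^ β))) := by ring
    _ ≤ C * (1 + 1 / L) ^ p * (C1 * Real.exp b) / a * (M / (1 + z.im ^ 2)) := by
        gcongr
        exact hgr z.im
    _ = _ := by ring

theorem Fi_diff (O : LFn) (hRH : RH O) {β : ℝ} {φ : ℝ → ℝ} (h : Wt β φ)
    {L t : ℝ} (hL : 0 < L) {z : ℂ} (hz : 0 < z.re) : DifferentiableAt ℂ (Fi O φ L t) z := by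
  have hz0 : z ≠ 0 := by
    intro h0
    rw [h0] at hz
    simp at hz
  have hre : (cl t + z / L).re = 1 / 2 + z.re / L := by
    simp [cl]
  have h1 : DifferentiableAt ℂ (fun z : ℂ => (O.L (cl t + z / L))⁻¹) z := by
    have h3 : DifferentiableAt ℂ (fun z : ℂ => cl t + z / L) z := by fun_prop
    have h4 : DifferentiableAt ℂ (fun z : ℂ => O.L (cl t + z / L)) z :=
      DifferentiableAt.comp (g := O.L) z (O.entire _) h3
    apply h4.fun_inv
    apply hRH
    rw [hre]
    have : 0 < z.re / L := by positivity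
    linarith
  have h2 : DifferentiableAt ℂ (Lap φ) z := Lap_diff h z
  exact (h1.mul h2).div differentiableAt_id hz0

/-- job PRH -/
theorem t_PRH (h1 : S_PER) (h2 : S_LOWB) (_h3 : S_FB) : S_PRH := by
  intro O hRH β φ hβ hφ L a t hL ha
  have hcont : ∀ c : ℝ, 0 < c → Integrable (fun K : ℝ => Fi O.toLFn φ L t (c + K * I)) := by
    intro c hc
    obtain ⟨M, hM, hMb⟩ := Fi_bound h2 O hRH hβ hφ (b := c) (t := t) hL hc
    refine vint (M := M) ?_ ?_
    · intro z hz
      exact (Fi_diff O.toLFn hRH hφ hL (by rw [mem_ofPred_eq] at hz; rw [hz]; exact hc)).continuousAt.continuousWithinAt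
    · intro z hz
      exact hMb z hz.ge hz.le
  refine ⟨hcont a ha, ?_⟩
  set b : ℝ := max a (2 * L) with hb
  have hab : a ≤ b := le_max_left _ _
  have hLb : 2 * L ≤ b := le_max_right _ _
  have hb0 : 0 < b := by linarith
  obtain ⟨M, hM, hMb⟩ := Fi_bound h2 O hRH hβ hφ (b := b) (t := t) hL ha
  have hshift := vshift (F := Fi O.toLFn φ L t) (M := M) hab ∅ Set.countable_empty ?_ ?_ hMb
  · have e1 := h1 O.toLFn β φ hβ hφ L b (cl t) hL hb0 (by
      have h3 : (cl t).re = 1 / 2 := by simp [cl]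
      rw [h3]
      have h4 : 2 ≤ b / L := by
        rw [le_div_iff₀ hL]
        linarith
      linarith)
    rw [e1]
    congr 1
    exact hshift.symm
  · intro z hz
    exact (Fi_diff O.toLFn hRH hφ hL (by linarith [hz.1])).continuousAt.continuousWithinAt
  · intro z hz1 hz2 hz3
    exact Fi_diff O.toLFn hRH hφ hL (by linarith)

end Pool.Agent.Q211.GB
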