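import Pool.Agent.Q286.GB.Stm
import Pool.Agent.Q162.BD.Ztwo

/-!
# Project GB (helper286), job RAT: ratio bound, lower bound, upper bound

Adapted from `Pool/Agent/Q162/BD/{Gz,Ztwo,ZtwoB}.lean`.
-/

set_option autoImplicit false

namespace Pool.Agent.Q211.GB

open Complex MeasureTheory Filter Topology Set
open Pool.Agent.Q286.BD (cl Lam ML)
open Pool.Agent.Q286.GB
open Pool.Agent.Q162.BD (pt pt_re pt_im hasDerivAt_log_norm Lam_pos Lam_ge2 logLam_ge ML_ge ML_le v0 v0_pos v0_le v0_Lam
  Lam_shift_le ML_shift v0_shift)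

/-- `log |L|` -/
noncomputable def ell (O : LFn) (v u : ℝ) : ℝ := Real.log ‖O.L (pt v u)‖

theorem pt_ne (O : LFn) (hRH : RH O) {v : ℝ} (u : ℝ) (hv : 0 < v) : O.L (pt v u) ≠ 0 :=
  hRH _ (by rw [pt_re]; linarith)

theorem L_pos (O : LFn) (hRH : RH O) {v : ℝ} (u : ℝ) (hv : 0 < v) : 0 < ‖O.L (pt v u)‖ :=
  norm_pos_iff.2 (pt_ne O hRH u hv)

theorem ell_exp (O : LFn) (hRH : RH O) {v : ℝ} (u : ℝ) (hv : 0 < v) : Real.exp (ell O v u) = ‖O.L (pt v u)‖ := by
  unfold ell
  rw [Real.exp_log (L_pos O hRH u hv)]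

theorem ell_deriv_v (O : LFn) (hRH : RH O) {v : ℝ} (u : ℝ) (hv : 0 < v) :
    HasDerivAt (fun v => ell O v u) ((deriv O.L (pt v u) / O.L (pt v u)).re) v := by
  have h1 : HasDerivAt (fun v : ℝ => pt v u) 1 v := by
    unfold pt
    have : HasDerivAt (fun v : ℝ => (v : ℂ)) 1 v := Complex.ofRealCLM.hasDerivAt
    exact (this.const_add (1 / 2)).add_const _
  have h2 : HasDerivAt (fun v : ℝ => O.L (pt v u)) (deriv O.L (pt v u) * 1) v :=
    (O.entire (pt v u)).hasDerivAt.comp v h1
  rw [mul_one] at h2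
  exact hasDerivAt_log_norm h2 (pt_ne O hRH u hv)

theorem ell_deriv_u (O : LFn) (hRH : RH O) {v : ℝ} (u : ℝ) (hv : 0 < v) :
    HasDerivAt (fun u => ell O v u) ((deriv O.L (pt v u) * I / O.L (pt v u)).re) u := by
  have h1 : HasDerivAt (fun u : ℝ => pt v u) I u := by
    unfold pt
    have : HasDerivAt (fun v : ℝ => (v : ℂ)) 1 u := Complex.ofRealCLM.hasDerivAt
    have h := (this.mul_const I).const_add (1 / 2 + (v : ℂ))
    rwa [one_mul] at h
  have h2 : HasDerivAt (fun u : ℝ => O.L (pt v u)) (deriv O.L (pt v u) * I) u :=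
    (O.entire (pt v u)).hasDerivAt.comp u h1
  exact hasDerivAt_log_norm h2 (pt_ne O hRH u hv)

/-- horizontal -/
theorem hor (O : LFn) (hRH : RH O) {C : ℝ} (hC : 0 < C)
    (h : ∀ u v : ℝ, 0 < v → v ≤ 1 → ‖deriv O.L (pt v u) / O.L (pt v u)‖ ≤ C * (Lam u + ML u / v))
    {x h' : ℝ} (u : ℝ) (hx : 0 < x) (hxh : x ≤ h') (hh : h' ≤ 1) :
    ell O h' u - ell O x u ≤ C * (Lam u * h' + ML u * Real.log (h' / x)) := by
  have hmono : MonotoneOn (fun v : ℝ => C * (Lam u * v + ML u * Real.log v) - ell O v u) (Icc x h') := by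
    have hd : ∀ v : ℝ, 0 < v → HasDerivAt (fun v : ℝ => C * (Lam u * v + ML u * Real.log v) - ell O v u)
        (C * (Lam u * 1 + ML u * v⁻¹) - (deriv O.L (pt v u) / O.L (pt v u)).re) v := by
      intro v hv
      exact ((((hasDerivAt_id v).const_mul (Lam u)).add ((Real.hasDerivAt_log hv.ne').const_mul (ML u))).const_mul C).sub
        (ell_deriv_v O hRH u hv)
    apply monotoneOn_of_deriv_nonneg (convex_Icc x h')
    · intro v hv
      exact (hd v (lt_of_lt_of_le hx hv.1)).continuousAt.continuousWithinAt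
    · intro v hv
      rw [interior_Icc] at hv
      exact (hd v (hx.trans hv.1)).differentiableAt.differentiableWithinAt
    · intro v hv
      rw [interior_Icc] at hv
      have hv0 : 0 < v := hx.trans hv.1
      rw [(hd v hv0).deriv]
      have h1 := h u v hv0 (hv.2.le.trans hh)
      have h2 := (Complex.abs_re_le_norm (deriv O.L (pt v u) / O.L (pt v u)))
      have h3 := le_abs_self (deriv O.L (pt v u) / O.L (pt v u)).re
      have h4 : C * (Lam u * 1 + ML u * v⁻¹) = C * (Lam u + ML u / v) := by rw [mul_one, div_eq_mul_inv]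
      linarith
  have h1 := hmono (left_mem_Icc.2 hxh) (right_mem_Icc.2 hxh) hxh
  simp only at h1
  rw [Real.log_div (hx.trans_le hxh).ne' hx.ne']
  have h2 : 0 ≤ C * (Lam u * x) := by
    have := Lam_pos u
    positivity
  nlinarith

/-- vertical -/
theorem ver (O : LFn) (hRH : RH O) {C M : ℝ}
    (h : ∀ u v : ℝ, 0 < v → v ≤ 1 → ‖deriv O.L (pt v u) / O.L (pt v u)‖ ≤ C * (Lam u + ML u / v))
    {v : ℝ} (hv : 0 < v) (hv1 : v ≤ 1) (u1 u2 : ℝ) (hM : ∀ u ∈ uIcc u1 u2, C * (Lam u + ML u / v) ≤ M) :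
    |ell O v u2 - ell O v u1| ≤ M * |u2 - u1| := by
  have h1 := Convex.norm_image_sub_le_of_norm_hasDerivWithin_le (f := fun u => ell O v u)
    (f' := fun u => (deriv O.L (pt v u) * I / O.L (pt v u)).re) (s := uIcc u1 u2) (x := u1) (y := u2) (C := M)
    (fun u hu => (ell_deriv_u O hRH u hv).hasDerivWithinAt) ?_ (convex_uIcc u1 u2) left_mem_uIcc right_mem_uIcc
  · simpa using h1
  · intro u hu
    rw [Real.norm_eq_abs]
    refine (Complex.abs_re_le_norm _).trans ?_
    have e : deriv O.L (pt v u) * I / O.L (pt v u) = I * (deriv O.L (pt v u) / O.L (pt v u)) := by ring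
    rw [e, norm_mul, Complex.norm_I, one_mul]
    exact (h u v hv hv1).trans (hM u hu)

/-- lower bound to the right of the line, in the form used below -/
theorem low1 (h1 : S_FAR) (h2 : S_LD) (O : Obj) (hRH : RH O.toLFn) : ∃ C : ℝ, 0 < C ∧
    ∀ u x : ℝ, 0 < x → Real.exp (-(C * ML u * (1 + Real.log (1 + v0 u / x)))) ≤ ‖O.L (pt x u)‖ := by
  obtain ⟨C1, hC1, hld⟩ := h2 O hRH
  obtain ⟨C2, hC2, hfar⟩ := h1 O hRH
  refine ⟨2 * C1 + C2, by positivity, fun u x hx => ?_⟩
  have hL := L_pos O.toLFn hRH u hx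
  rw [← Real.le_log_iff_exp_le hL]
  have hML := ML_ge u
  obtain ⟨q, hq⟩ : ∃ q : ℝ, q = Real.log (1 + v0 u / x) := ⟨_, rfl⟩
  have hvx : 0 ≤ v0 u / x := div_nonneg (v0_pos u).le hx.le
  have hq0 : 0 ≤ q := by
    rw [hq]
    exact Real.log_nonneg (by linarith)
  rw [← hq]
  have hq1 : 0 ≤ ML u * q := by positivity
  rcases le_total x (v0 u) with hc | hc
  · have e1 := hor O.toLFn hRH hC1 hld u hx hc (v0_le u)
    have e2 : Lam u * v0 u = ML u := by rw [mul_comm, v0_Lam]
    have e3 : Real.log (v0 u / x) ≤ q := by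
      rw [hq]
      apply Real.log_le_log (div_pos (v0_pos u) hx)
      linarith
    rw [e2] at e1
    have e4 : ML u * Real.log (v0 u / x) ≤ ML u * q := mul_le_mul_of_nonneg_left e3 (by linarith)
    have e5 := (abs_le.1 (hfar u (v0 u) le_rfl)).1
    have e6 : ell O.toLFn (v0 u) u = Real.log ‖O.L (1 / 2 + (v0 u : ℝ) + u * I)‖ := rfl
    have e7 : ell O.toLFn x u = Real.log ‖O.L (pt x u)‖ := rfl
    have e8 : C1 * (ML u + ML u * Real.log (v0 u / x)) ≤ C1 * (ML u + ML u * q) :=
      mul_le_mul_of_nonneg_left (by linarith) hC1.le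
    have e9 : 0 ≤ C1 * (ML u * q) := by positivity
    have e10 : 0 ≤ C2 * (ML u * q) := by positivity
    have e11 : 0 ≤ C1 * ML u := by positivity
    nlinarith
  · have e1 := (abs_le.1 (hfar u x hc)).1
    have e2 : Real.log ‖O.L (1 / 2 + (x : ℝ) + u * I)‖ = Real.log ‖O.L (pt x u)‖ := rfl
    have e9 : 0 ≤ C1 * (ML u * q) := by positivity
    have e10 : 0 ≤ C2 * (ML u * q) := by positivity
    have e11 : 0 ≤ C1 * ML u := by positivity
    nlinarith

/-- upper bound on the line -/
theorem t_UPL (h1 : S_FAR) (_h2 : S_LD) (h3 : S_MONO) : S_UPL := by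
  intro O hRH
  obtain ⟨C3, hC3, hfar⟩ := h1 O hRH
  obtain ⟨C4, hC4, h4'⟩ := h3 O hRH
  refine ⟨C3 + 2 * C4, by positivity, ?_⟩
  intro t
  have hML := ML_ge t
  have e1 := h4' t (v0 t) (v0_pos t) (v0_le t)
  rw [v0_Lam] at e1
  have e2 := hfar t (v0 t) le_rfl
  have e3 : ‖O.L (1 / 2 + (v0 t : ℝ) + t * I)‖ ≤ Real.exp (C3 * ML t) := by
    have hp : 0 < ‖O.L (1 / 2 + (v0 t : ℝ) + t * I)‖ := L_pos O.toLFn hRH t (v0_pos t)
    rw [← Real.log_le_iff_le_exp hp]
    exact (le_abs_self _).trans e2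
  have e4 : C4 ≤ Real.exp C4 := by
    have := Real.add_one_le_exp C4
    linarith
  calc ‖O.L (cl t)‖ ≤ C4 * Real.exp (C4 * ML t) * ‖O.L (1 / 2 + (v0 t : ℝ) + t * I)‖ := e1
    _ ≤ Real.exp C4 * Real.exp (C4 * ML t) * Real.exp (C3 * ML t) := by gcongr
    _ = Real.exp (C4 + C4 * ML t + C3 * ML t) := by rw [Real.exp_add, Real.exp_add]
    _ ≤ _ := by
      apply Real.exp_le_exp.2
      nlinarith

/-- lower bound -/
theorem t_LOWB (h1 : S_FAR) (h2 : S_LD) (_h3 : S_MONO) : S_LOWB := by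
  intro O hRH
  obtain ⟨C, hC, h⟩ := low1 h1 h2 O hRH
  refine ⟨3 * C, by positivity, ?_⟩
  intro u x hx
  refine le_trans (Real.exp_le_exp.2 ?_) (h u x hx)
  apply neg_le_neg
  have hv := v0_le u
  have hv' := (v0_pos u).le
  have e0 : 0 < 1 / x := by positivity
  have e1 : Real.log (1 + v0 u / x) ≤ Real.log (2 + 1 / x) := by
    apply Real.log_le_log
    · have : 0 ≤ v0 u / x := by positivity
      linarith
    · have : v0 u / x ≤ 1 / x := div_le_div_of_nonneg_right hv hx.le
      linarith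
  have e2 : 1 / 2 ≤ Real.log (2 + 1 / x) := by
    have e3 : Real.log 2 ≤ Real.log (2 + 1 / x) := Real.log_le_log (by norm_num) (by linarith)
    have := Real.log_two_gt_d9
    linarith
  have e3 := ML_le u
  have e4 := ML_ge u
  calc C * ML u * (1 + Real.log (1 + v0 u / x)) ≤ C * Lam u * (3 * Real.log (2 + 1 / x)) := by
        apply mul_le_mul
        · exact mul_le_mul_of_nonneg_left e3 hC.le
        · linarith
        · have : 0 ≤ Real.log (1 + v0 u / x) := Real.log_nonneg (by have : 0 ≤ v0 u / x := by positivity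
                                                                    linarith)
          linarith
        · exact mul_nonneg hC.le (Lam_pos u).le
    _ = _ := by ring

/-- ratio bound -/
theorem t_RATIO (h1 : S_FAR) (h2 : S_LD) (h3 : S_MONO) : S_RATIO := by
  intro O hRH
  obtain ⟨C1, hC1, hld⟩ := h2 O hRH
  obtain ⟨Cl, hCl, hl⟩ := low1 h1 h2 O hRH
  obtain ⟨Cu, hCu, hu⟩ := t_UPL h1 h2 h3 O hRH
  obtain ⟨C4, hC4, h4'⟩ := h3 O hRH
  refine ⟨3 * C4 + 2 + 18 * C1 + 2 * Cu + 28 * Cl, by positivity, ?_⟩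
  intro t y x hx hx1 hy
  obtain ⟨q, hq⟩ : ∃ q : ℝ, q = Real.log (2 + |y| / x) := ⟨_, rfl⟩
  rw [← hq]
  have hyx : 0 ≤ |y| / x := div_nonneg (abs_nonneg _) hx.le
  have hl2 := Real.log_two_gt_d9
  have hl2' := Real.log_two_lt_d9
  have hq1 : Real.log 2 ≤ q := by
    rw [hq]
    apply Real.log_le_log (by norm_num)
    linarith
  have hML := ML_ge t
  have hMq : 1 ≤ ML t * q := by nlinarith
  have hMq2 : ML t ≤ 2 * (ML t * q) := by nlinarith
  have hcast : (1 / 2 + x + (t + y) * I : ℂ) = pt x (t + y) := by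
    unfold pt; push_cast; ring
  rw [hcast]
  have hPpos := L_pos O.toLFn hRH (t + y) hx
  rcases le_or_gt (max x |y|) (v0 t) with hc | hc
  · -- both small
    obtain ⟨h', hh'⟩ : ∃ h' : ℝ, h' = max x |y| := ⟨_, rfl⟩
    rw [← hh'] at hc
    have hxh : x ≤ h' := by rw [hh']; exact le_max_left _ _
    have hyh : |y| ≤ h' := by rw [hh']; exact le_max_right _ _
    have hh1 : h' ≤ 1 := hc.trans (v0_le t)
    have hh0 : 0 < h' := hx.trans_le hxh
    -- (E)
    have hE := h4' t h' hh0 hh1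
    have hhL : h' * Lam t ≤ ML t := by
      rw [← v0_Lam]
      exact mul_le_mul_of_nonneg_right hc (Lam_pos t).le
    -- (C)
    have hsh : ∀ u ∈ uIcc t (t + y), |u - t| ≤ |y| := by
      intro u hu
      have := Set.abs_sub_left_of_mem_uIcc hu
      rwa [add_sub_cancel_left] at this
    have hCC := ver O.toLFn hRH hld hh0 hh1 t (t + y) (M := C1 * (Lam t + 1 + 4 * ML t / h')) (by
      intro u hu
      have e1 := hsh u hu
      have e2 : |u - t| ≤ 1 + |t| / 2 := e1.trans hy
      have e3 := Lam_shift_le e2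
      have e4 := ML_shift e2
      rw [add_sub_cancel] at e3 e4
      apply mul_le_mul_of_nonneg_left _ hC1.le
      have e5 : ML u / h' ≤ 4 * ML t / h' := div_le_div_of_nonneg_right e4 hh0.le
      linarith)
    rw [add_sub_cancel_left] at hCC
    have hC2 : C1 * (Lam t + 1 + 4 * ML t / h') * |y| ≤ C1 * (5 * ML t + 1) := by
      have f0 : 0 ≤ C1 * (Lam t + 1 + 4 * ML t / h') := by
        have := (Lam_pos t).le
        positivity
      calc C1 * (Lam t + 1 + 4 * ML t / h') * |y| ≤ C1 * (Lam t + 1 + 4 * ML t / h') * h' :=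
            mul_le_mul_of_nonneg_left hyh f0
        _ = C1 * (h' * Lam t + h' + 4 * ML t) := by field_simp
        _ ≤ C1 * (5 * ML t + 1) := by
            apply mul_le_mul_of_nonneg_left _ hC1.le
            linarith
    -- (D)
    have hD := hor O.toLFn hRH hC1 hld (t + y) hx hxh hh1
    have hD2 : C1 * (Lam (t + y) * h' + ML (t + y) * Real.log (h' / x)) ≤ C1 * (ML t + 1 + 4 * ML t * q) := by
      apply mul_le_mul_of_nonneg_left _ hC1.le
      have f1 : Lam (t + y) * h' ≤ ML t + 1 := by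
        have := mul_le_mul_of_nonneg_right (Lam_shift_le hy) hh0.le
        nlinarith
      have f2 : Real.log (h' / x) ≤ q := by
        rw [hq]
        apply Real.log_le_log (div_pos hh0 hx)
        rw [div_le_iff₀ hx, add_mul, div_mul_cancel₀ _ hx.ne', hh']
        apply max_le <;> linarith [abs_nonneg y]
      have f3 : 0 ≤ Real.log (h' / x) := by
        apply Real.log_nonneg
        rw [le_div_iff₀ hx, one_mul]
        exact hxh
      have f4 := ML_shift hy
      have f5 : ML (t + y) * Real.log (h' / x) ≤ 4 * ML t * q := mul_le_mul f4 f2 f3 (by linarith)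
      linarith
    have hCab := (abs_le.1 (hCC.trans hC2)).1
    obtain ⟨E, hEd⟩ : ∃ E : ℝ, E = C1 * (5 * ML t + 1) + C1 * (ML t + 1 + 4 * ML t * q) := ⟨_, rfl⟩
    have hel : ell O.toLFn h' t ≤ ell O.toLFn x (t + y) + E := by
      rw [hEd]
      linarith
    have hGz2 : ‖O.L (pt h' t)‖ ≤ Real.exp E * ‖O.L (pt x (t + y))‖ := by
      rw [← ell_exp O.toLFn hRH t hh0, ← ell_exp O.toLFn hRH (t + y) hx, ← Real.exp_add]
      apply Real.exp_le_exp.2
      linarith
    have e3 : C4 ≤ Real.exp C4 := by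
      have := Real.add_one_le_exp C4
      linarith
    calc ‖O.L (cl t)‖ ≤ C4 * Real.exp (C4 * (h' * Lam t)) * ‖O.L (pt h' t)‖ := hE
      _ ≤ C4 * Real.exp (C4 * ML t) * (Real.exp E * ‖O.L (pt x (t + y))‖) := by
          apply mul_le_mul _ hGz2 (norm_nonneg _) (by positivity)
          apply mul_le_mul_of_nonneg_left (Real.exp_le_exp.2 _) hC4.le
          exact mul_le_mul_of_nonneg_left hhL hC4.le
      _ = C4 * Real.exp (C4 * ML t) * Real.exp E * ‖O.L (pt x (t + y))‖ := by ring
      _ ≤ Real.exp C4 * Real.exp (C4 * ML t) * Real.exp E * ‖O.L (pt x (t + y))‖ := by gcongr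
      _ = Real.exp (C4 + C4 * ML t + E) * ‖O.L (pt x (t + y))‖ := by
          rw [Real.exp_add, Real.exp_add]
      _ ≤ _ := by
          apply mul_le_mul_of_nonneg_right _ hPpos.le
          apply Real.exp_le_exp.2
          rw [hEd]
          have f1 : 0 ≤ ML t * q := by positivity
          have f2 : C4 ≤ C4 * (ML t * q) := le_mul_of_one_le_right (by positivity) hMq
          have f2' : C4 * ML t ≤ C4 * (2 * (ML t * q)) := mul_le_mul_of_nonneg_left hMq2 hC4.le
          have f3 : C1 * (6 * ML t + 2) ≤ C1 * (14 * (ML t * q)) := mul_le_mul_of_nonneg_left (by linarith) hC1.le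
          have f4 : 0 ≤ Cu * (ML t * q) := by positivity
          have f5 : 0 ≤ Cl * (ML t * q) := by positivity
          have f6 : C1 * (5 * ML t + 1) + C1 * (ML t + 1 + 4 * ML t * q) = C1 * (6 * ML t + 2) + 4 * (C1 * (ML t * q)) := by ring
          rw [f6]
          have f7 : (3 * C4 + 2 + 18 * C1 + 2 * Cu + 28 * Cl) * ML t * q =
              3 * (C4 * (ML t * q)) + 2 * (ML t * q) + C1 * (14 * (ML t * q)) + 4 * (C1 * (ML t * q)) + 2 * (Cu * (ML t * q)) +
                28 * (Cl * (ML t * q)) := by ring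
          rw [f7]
          linarith
  · -- far
    have e1 := hu t
    have e2 := hl (t + y) x hx
    have f1 := ML_shift hy
    have f2 := v0_shift hy
    have f3 : 1 + v0 (t + y) / x ≤ 16 * (2 + |y| / x) := by
      have g1 : v0 (t + y) ≤ 8 * max x |y| := by linarith [v0_pos t]
      have g2 : max x |y| ≤ x + |y| := max_le (by linarith [abs_nonneg y]) (by linarith)
      have g3 : v0 (t + y) / x ≤ 8 * (x + |y|) / x := div_le_div_of_nonneg_right (by linarith) hx.le
      have g4 : 8 * (x + |y|) / x = 8 + 8 * (|y| / x) := by field_simp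
      linarith
    have f4 : Real.log (1 + v0 (t + y) / x) ≤ 5 * q := by
      have g0 : 0 ≤ v0 (t + y) / x := div_nonneg (v0_pos _).le hx.le
      have g1 := Real.log_le_log (by linarith) f3
      rw [Real.log_mul (by norm_num) (by positivity), ← hq] at g1
      have g2 : Real.log 16 = 4 * Real.log 2 := by
        rw [show (16 : ℝ) = 2 ^ 4 by norm_num, Real.log_pow]; norm_num
      linarith
    have f5 : Cl * ML (t + y) * (1 + Real.log (1 + v0 (t + y) / x)) ≤ 28 * (Cl * (ML t * q)) := by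
      have g0 : 0 ≤ Real.log (1 + v0 (t + y) / x) := by
        apply Real.log_nonneg
        have : 0 ≤ v0 (t + y) / x := div_nonneg (v0_pos _).le hx.le
        linarith
      calc Cl * ML (t + y) * (1 + Real.log (1 + v0 (t + y) / x)) ≤ Cl * (4 * ML t) * (7 * q) := by
            apply mul_le_mul (mul_le_mul_of_nonneg_left f1 hCl.le) _ (by linarith) (by positivity)
            linarith
        _ = _ := by ring
    calc ‖O.L (cl t)‖ ≤ Real.exp (Cu * ML t) * 1 := by rw [mul_one]; exact e1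
      _ ≤ Real.exp (Cu * ML t) * (Real.exp (28 * (Cl * (ML t * q))) * ‖O.L (pt x (t + y))‖) := by
          apply mul_le_mul_of_nonneg_left _ (Real.exp_pos _).le
          have g1 : Real.exp (-(28 * (Cl * (ML t * q)))) ≤ ‖O.L (pt x (t + y))‖ :=
            (Real.exp_le_exp.2 (neg_le_neg f5)).trans e2
          calc (1 : ℝ) = Real.exp (28 * (Cl * (ML t * q))) * Real.exp (-(28 * (Cl * (ML t * q)))) := by
                rw [← Real.exp_add, add_neg_cancel, Real.exp_zero]
            _ ≤ _ := mul_le_mul_of_nonneg_left g1 (Real.exp_pos _).le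
      _ = Real.exp (Cu * ML t + 28 * (Cl * (ML t * q))) * ‖O.L (pt x (t + y))‖ := by
          rw [Real.exp_add, mul_assoc]
      _ ≤ _ := by
          apply mul_le_mul_of_nonneg_right _ hPpos.le
          apply Real.exp_le_exp.2
          have f6 : Cu * ML t ≤ Cu * (2 * (ML t * q)) := mul_le_mul_of_nonneg_left hMq2 hCu.le
          have f7 : (3 * C4 + 2 + 18 * C1 + 2 * Cu + 28 * Cl) * ML t * q =
              3 * C4 * (ML t * q) + 2 * (ML t * q) + 18 * (C1 * (ML t * q)) + Cu * (2 * (ML t * q)) +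
                28 * (Cl * (ML t * q)) := by ring
          rw [f7]
          have f8 : 0 ≤ 3 * C4 * (ML t * q) := by positivity
          have f9 : 0 ≤ C1 * (ML t * q) := by positivity
          have f10 : 0 ≤ ML t * q := by positivity
          linarith

end Pool.Agent.Q211.GB
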